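import Mathlib
import Pool.Agent.T6.H40.KN.Fin

/-!
# Complete graphs on many vertices are not weakly contractible

A negative answer to Q1, for all large `n`. More precisely, for every `ε > 0` and all large `n`
there is a graph `G` with `O(n)` vertices which contains a `K_n`-scheme, but which has no
`K_m`-minor for `m ≥ (1/2 + ε) n`.

Construction. `G` has the vertices `v_i = (i, none)` and `(i, a)`, `1 ≤ i ≤ n`, `1 ≤ a ≤ t`, and is
the union of the paths `v_i, (j, c j i), (i, c i j), v_j`, `i ≠ j`, for a function `c` with values
in `{1, …, t}`. A vertex `(i, a)` is only on paths which end at `v_i`, so that these paths are a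
`K_n`-scheme.

Proof. Suppose that all these graphs have a `K_m`-minor. A branch set which contains all the vertices
`(i, 1), …, (i, t)` of a class has at least `2 t` elements, because these vertices have pairwise
different neighbours outside the class. So at most `n (t + 1) / (2 t)` branch sets are of this kind.
Of the others at least `c_1 n` have at most `K` elements and do not meet the same classes, `t` and
`K` being large constants. For two such branch sets `P` and `Q` there is a vertex `(i, a_i)` outside
`P`, respectively `Q`, in every class `i` which meets `P`, respectively `Q`, and for some pair of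
classes the two values of `c` are not `a_i` and `a_j`. These conditions for the pairs `P, Q` are
independent; the number of the functions `c` with all these conditions is at most
`(1 - δ) ^ (c_2 n²)` times the number of all functions, `δ > 0` a constant, and there are only
`exp (O (n log n))` families of such conditions.
-/

set_option autoImplicit false

namespace Pool.Agent.Results.MP_ed45fc_co.NotWeaklyContractible

/-- `G` contains an `H`-scheme, the vertices of `H` being identified with vertices of `G` by `ι`:
paths `P u v` from `u` to `v` for the edges `uv` of `H` (the path of `vu` is the reversed path),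
which contain no further vertices of `H`, such that edges of `H` whose paths have a common vertex
have a common end. -/
def HasScheme {V W : Type} (G : SimpleGraph V) (H : SimpleGraph W) (ι : W ↪ V) : Prop :=
  ∃ P : ∀ u v : W, H.Adj u v → G.Walk (ι u) (ι v),
    (∀ (u v : W) (h : H.Adj u v), (P u v h).IsPath ∧ P v u h.symm = (P u v h).reverse ∧
      ∀ w, ι w ∈ (P u v h).support → w = u ∨ w = v) ∧
    ∀ A : Set (W × W), A.Nonempty → (∀ e ∈ A, H.Adj e.1 e.2) →
      (∃ x : V, ∀ e ∈ A, ∀ h : H.Adj e.1 e.2, x ∈ (P e.1 e.2 h).support) →
      ∃ u : W, ∀ e ∈ A, u = e.1 ∨ u = e.2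

/-- `G` has an `H`-minor: pairwise disjoint connected branch sets `C v`, with an edge of `G`
between `C u` and `C v` for every edge `uv` of `H`. -/
def HasMinor {V W : Type} (G : SimpleGraph V) (H : SimpleGraph W) : Prop :=
  ∃ C : W → Set V, (∀ u v, u ≠ v → Disjoint (C u) (C v)) ∧ (∀ v, (G.induce (C v)).Connected) ∧
    ∀ u v, H.Adj u v → ∃ x ∈ C u, ∃ y ∈ C v, G.Adj x y

/-- `H` is weakly contractible: every finite graph which contains an `H`-scheme has an
`H`-minor. -/
def WeaklyContractible {W : Type} (H : SimpleGraph W) : Prop :=
  ∀ (V : Type) [Finite V] (G : SimpleGraph V) (ι : W ↪ V), HasScheme G H ι → HasMinor G H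

/-- `K_n` is not weakly contractible for all large `n`; for every `ε > 0` and all large `n` there is
a graph with at most `A n` vertices which contains a `K_n`-scheme and has no `K_m`-minor for
`m ≥ (1/2 + ε) n`. -/
theorem result :
    (∃ n₀ : ℕ, ∀ n ≥ n₀, ¬ WeaklyContractible (⊤ : SimpleGraph (Fin n))) ∧
    ∀ ε : ℝ, 0 < ε → ∃ A n₀ : ℕ, ∀ n ≥ n₀,
      ∃ (V : Type) (_ : Fintype V) (G : SimpleGraph V) (ι : Fin n ↪ V),
        Fintype.card V ≤ A * n ∧ HasScheme G (⊤ : SimpleGraph (Fin n)) ι ∧
        ∀ m : ℕ, (1 / 2 + ε) * n ≤ m → ¬ HasMinor G (⊤ : SimpleGraph (Fin m)) :=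
  ⟨Pool.Agent.T6.H40.KN.main_three, fun _ hε => Pool.Agent.T6.H40.KN.main_two hε⟩

end Pool.Agent.Results.MP_ed45fc_co.NotWeaklyContractible
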